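import Pool.Agent.W739.CY.Stm

/-!
CY-GAP: sum over the colour of one letter.
-/

set_option autoImplicit false

namespace Pool.Agent.W915.CY

open Finset Pool.Agent.W739.CY

section basic

variable {C : Type}

theorem spl_congr (f g : List C → C → List C → ℝ) (w : List C)
    (h : ∀ v c u, w = v ++ c :: u → f v c u = g v c u) : spl f w = spl g w := by
  induction w generalizing f g with
  | nil => rfl
  | cons x w ih =>
    simp only [spl]
    rw [h [] x w rfl]
    congr 1
    apply ih
    intro v c u hw
    exact h (x :: v) c u (by rw [hw]; rfl)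

theorem spl_add (f g : List C → C → List C → ℝ) (w : List C) :
    spl (fun v c u => f v c u + g v c u) w = spl f w + spl g w := by
  induction w generalizing f g with
  | nil => simp [spl]
  | cons x w ih =>
    simp only [spl]
    rw [ih]
    ring

theorem spl_mul (k : ℝ) (f : List C → C → List C → ℝ) (w : List C) :
    spl (fun v c u => k * f v c u) w = k * spl f w := by
  induction w generalizing f with
  | nil => simp [spl]
  | cons x w ih =>
    simp only [spl]
    rw [ih]
    ring

theorem spl_zero (w : List C) : spl (fun _ _ _ => (0 : ℝ)) w = 0 := by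
  induction w with
  | nil => simp [spl]
  | cons x w ih =>
    simp only [spl]
    rw [ih]
    ring

theorem spl_eq_zero (f : List C → C → List C → ℝ) (w : List C)
    (h : ∀ v c u, w = v ++ c :: u → f v c u = 0) : spl f w = 0 := by
  rw [spl_congr f (fun _ _ _ => 0) w h, spl_zero]

theorem spl_sum {ι : Type} (s : Finset ι) (f : ι → List C → C → List C → ℝ) (w : List C) :
    spl (fun v c u => ∑ i ∈ s, f i v c u) w = ∑ i ∈ s, spl (f i) w := by
  induction w generalizing f with
  | nil => simp [spl]
  | cons x w ih =>
    simp only [spl]
    rw [ih, Finset.sum_add_distrib]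

theorem spl_append (f : List C → C → List C → ℝ) (u v : List C) :
    spl f (u ++ v) = spl (fun a c b => f a c (b ++ v)) u + spl (fun a c b => f (u ++ a) c b) v := by
  induction u generalizing f with
  | nil => simp [spl]
  | cons x u ih =>
    simp only [spl, List.cons_append]
    rw [ih]
    ring

/-- weighted deletion -/
def dl (p : ℝ) (f : List C → ℝ) (w : List C) : ℝ := spl (fun v _ u => p ^ u.length * f (v ++ u)) w

theorem dl_nil (p : ℝ) (f : List C → ℝ) : dl p f [] = 0 := rfl

theorem dl_cons (p : ℝ) (f : List C → ℝ) (x : C) (w : List C) :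
    dl p f (x :: w) = p ^ w.length * f w + dl p (fun z => f (x :: z)) w := rfl

theorem dl_congr (p : ℝ) (f g : List C → ℝ) (w : List C)
    (h : ∀ z : List C, z.length + 1 = w.length → f z = g z) : dl p f w = dl p g w := by
  apply spl_congr
  intro v c u hw
  rw [h (v ++ u) (by rw [hw]; simp; omega)]

theorem dl_congr' (p : ℝ) (f g : List C → ℝ) (w : List C)
    (h : ∀ z : List C, f z = g z) : dl p f w = dl p g w :=
  dl_congr p f g w (fun z _ => h z)

theorem dl_eq_zero (p : ℝ) (f : List C → ℝ) (w : List C) (h : ∀ z, f z = 0) : dl p f w = 0 := by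
  apply spl_eq_zero
  intro v c u _
  rw [h, mul_zero]

theorem dl_add (p : ℝ) (f g : List C → ℝ) (w : List C) :
    dl p (fun z => f z + g z) w = dl p f w + dl p g w := by
  unfold dl
  rw [← spl_add]
  apply spl_congr
  intro v c u _
  ring

theorem dl_mul (p k : ℝ) (f : List C → ℝ) (w : List C) :
    dl p (fun z => k * f z) w = k * dl p f w := by
  unfold dl
  rw [← spl_mul]
  apply spl_congr
  intro v c u _
  ring

theorem dl_sub (p : ℝ) (f g : List C → ℝ) (w : List C) :
    dl p (fun z => f z - g z) w = dl p f w - dl p g w := by
  have h : dl p (fun z => f z - g z) w = dl p (fun z => f z + (-1) * g z) w :=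
    dl_congr' p _ _ w (fun z => by ring)
  rw [h, dl_add, dl_mul]
  ring

theorem dl_len (p : ℝ) (g : ℕ → ℝ) (f : List C → ℝ) (w : List C) :
    dl p (fun z => g z.length * f z) w = g (w.length - 1) * dl p f w := by
  rw [← dl_mul]
  apply dl_congr
  intro z hz
  have : z.length = w.length - 1 := by omega
  rw [this]

theorem dl_sum {ι : Type} (s : Finset ι) (p : ℝ) (f : ι → List C → ℝ) (w : List C) :
    dl p (fun z => ∑ i ∈ s, f i z) w = ∑ i ∈ s, dl p (f i) w := by
  unfold dl
  rw [← spl_sum]
  apply spl_congr
  intro v c u _
  rw [Finset.mul_sum]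

theorem dl_append_cons (p : ℝ) (f : List C → ℝ) (u v : List C) (x : C) :
    dl p f (u ++ x :: v) = p ^ (v.length + 1) * dl p (fun z => f (z ++ x :: v)) u +
      p ^ v.length * f (u ++ v) + dl p (fun z => f (u ++ x :: z)) v := by
  unfold dl
  rw [spl_append]
  simp only [spl]
  rw [← spl_mul, ← add_assoc]
  congr 1
  · congr 1
    · apply spl_congr
      intro a c b _
      rw [List.length_append, List.length_cons, List.append_assoc, pow_add]
      ring
    · rw [List.append_nil]
  · apply spl_congr
    intro a c b _
    simp

theorem dl_spl (p : ℝ) (f : List C → C → List C → ℝ) (w : List C) :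
    dl p (spl f) w = spl (fun u1 y u2 => dl p (f u1 y) u2 +
      p ^ (u2.length + 1) * dl p (fun z => f z y u2) u1) w := by
  induction w generalizing f with
  | nil => rfl
  | cons x w ih =>
    rw [dl_cons]
    have h1 : dl p (fun z => spl f (x :: z)) w =
        dl p (f [] x) w + dl p (spl (fun v c u => f (x :: v) c u)) w := by
      rw [← dl_add]
      rfl
    rw [h1, ih]
    simp only [spl]
    rw [dl_nil, mul_zero, add_zero]
    have h2 : spl (fun v c u => dl p (f (x :: v) c) u +
        p ^ (u.length + 1) * dl p (fun z => f z c u) (x :: v)) w =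
        spl (fun v c u => dl p (f (x :: v) c) u +
          p ^ (u.length + 1) * dl p (fun z => f (x :: z) c u) v) w + p ^ w.length * spl f w := by
      rw [← spl_mul, ← spl_add]
      apply spl_congr
      intro v c u hw
      rw [dl_cons]
      have h3 : w.length = v.length + (u.length + 1) := by rw [hw]; simp
      rw [h3, pow_add]
      ring
    rw [h2]
    ring

end basic

section proper

variable {C : Type}

/-- the last letter, or the wall -/
def lastO : Option C → List C → Option C
  | a, [] => a
  | _, x :: u => lastO (some x) u

/-- the first letter, or the wall -/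
def headO : List C → Option C → Option C
  | [], b => b
  | x :: _, _ => some x

theorem lastO_append (a : Option C) (u : List C) (x : C) : lastO a (u ++ [x]) = some x := by
  induction u generalizing a with
  | nil => rfl
  | cons y u ih => exact ih (some y)

theorem lastO_cons_ne (a : Option C) (u : List C) (y : C) : lastO a (y :: u) ≠ none := by
  rcases List.eq_nil_or_concat (y :: u) with h | ⟨u', z, h⟩
  · exact absurd h (by simp)
  · rw [h, List.concat_eq_append, lastO_append]
    simp

variable [DecidableEq C]

theorem Pr_append_cons (a b : Option C) (u v : List C) (x : C) :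
    Pr a (u ++ x :: v) b ↔ Pr a u (some x) ∧ Pr (some x) v b := by
  induction u generalizing a with
  | nil => simp [Pr]
  | cons y u ih =>
    simp only [List.cons_append, Pr]
    rw [ih]
    tauto

theorem Pr_last (a b : Option C) (u : List C) :
    Pr a u b ↔ Pr a u none ∧ ok (lastO a u) b := by
  induction u generalizing a with
  | nil =>
    simp only [Pr, lastO, ok]
    tauto
  | cons y u ih =>
    simp only [Pr, lastO]
    rw [ih]
    tauto

theorem Pr_head (b : Option C) (x : C) (v : List C) :
    Pr (some x) v b ↔ Pr none v b ∧ ok (some x) (headO v b) := by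
  cases v with
  | nil => simp [Pr, headO, ok]
  | cons y v =>
    simp only [Pr, headO, ok]
    simp
    tauto

theorem ok_some_right (l : Option C) (x : C) : ok l (some x) ↔ ¬ (some x = l) := by
  unfold ok
  constructor
  · rintro (h | h)
    · rw [h]; simp
    · exact fun h' => h h'.symm
  · intro h
    exact Or.inr (fun h' => h h'.symm)

theorem ok_some_left (r : Option C) (x : C) : ok (some x) r ↔ ¬ (some x = r) := by
  unfold ok
  simp

theorem Pr_mid (a b : Option C) (u v : List C) (x : C) :
    Pr a (u ++ x :: v) b ↔ (Pr a u none ∧ ¬ (some x = lastO a u)) ∧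
      (Pr none v b ∧ ¬ (some x = headO v b)) := by
  rw [Pr_append_cons, Pr_last, Pr_head, ok_some_right, ok_some_left]

theorem Pr_uv (a b : Option C) (u v : List C) (h : Pr a (u ++ v) b) :
    ok (lastO a u) (headO v b) := by
  cases v with
  | nil =>
    rw [List.append_nil, Pr_last] at h
    exact h.2
  | cons y v =>
    rw [Pr_append_cons, Pr_last] at h
    exact h.1.2

end proper

section main

variable {C : Type} [DecidableEq C]

theorem F_rec (hDEL : S_DEL) {p : ℝ} (hp : Good p) (a b : Option C) (w : List C)
    (h : Pr a w b) : (1 - p ^ w.length) * F p a w b = dl p (fun z => F p a z b) w := by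
  by_cases hw : w = []
  · subst hw
    simp [dl_nil]
  · exact (hDEL C p hp a b).2.2.2.1 w hw h

theorem F_imp (hDEL : S_DEL) {p : ℝ} (hp : Good p) (a b : Option C) (w : List C)
    (h : ¬ Pr a w b) : F p a w b = 0 := (hDEL C p hp a b).2.1 w h

theorem lemA (hDEL : S_DEL) {p : ℝ} (hp : Good p) (a b : Option C) (u v : List C) (x : C)
    (h : some x = lastO a u) :
    dl p (fun z => F p a (z ++ x :: v) b) u = if u = [] then 0 else F p a (u ++ v) b := by
  rcases List.eq_nil_or_concat u with hu | ⟨u', y, hu⟩
  · subst hu
    simp [dl_nil]
  · rw [List.concat_eq_append] at hu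
    subst hu
    rw [lastO_append] at h
    have hxy : x = y := by simpa using h
    subst hxy
    rw [if_neg (by simp), dl_append_cons, dl_nil, dl_eq_zero]
    · simp
    · intro z
      apply F_imp hDEL hp
      rw [Pr_mid]
      rintro ⟨⟨-, h2⟩, -⟩
      exact h2 (by rw [lastO_append])

theorem lemB (hDEL : S_DEL) {p : ℝ} (hp : Good p) (a b : Option C) (u v : List C) (x : C)
    (h : some x = headO v b) :
    dl p (fun z => F p a (u ++ x :: z) b) v =
      if v = [] then 0 else p ^ (v.length - 1) * F p a (u ++ v) b := by
  cases v with
  | nil => simp [dl_nil]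
  | cons y v =>
    have hxy : x = y := by simpa [headO] using h
    subst hxy
    rw [if_neg (by simp), dl_cons, dl_eq_zero]
    · simp
    · intro z
      apply F_imp hDEL hp
      rw [Pr_mid]
      rintro ⟨-, -, h2⟩
      exact h2 rfl

theorem lemA0 (hDEL : S_DEL) {p : ℝ} (hp : Good p) (a b : Option C) (u v : List C) (x : C)
    (h : some x = headO v b) : dl p (fun z => F p a (z ++ x :: v) b) u = 0 := by
  apply dl_eq_zero
  intro z
  apply F_imp hDEL hp
  rw [Pr_mid]
  rintro ⟨-, -, h2⟩
  exact h2 h

theorem lemB0 (hDEL : S_DEL) {p : ℝ} (hp : Good p) (a b : Option C) (u v : List C) (x : C)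
    (h : some x = lastO a u) : dl p (fun z => F p a (u ++ x :: z) b) v = 0 := by
  apply dl_eq_zero
  intro z
  apply F_imp hDEL hp
  rw [Pr_mid]
  rintro ⟨⟨-, h2⟩, -⟩
  exact h2 h

/-- the defect of the deletion recursion -/
theorem defect (hDEL : S_DEL) {p : ℝ} (hp : Good p) (a b : Option C) (u v : List C) (x : C)
    (hu : Pr a u none) (hv : Pr none v b) :
    dl p (fun z => F p a z b) (u ++ x :: v) =
      (1 - p ^ (u.length + v.length + 1)) * F p a (u ++ x :: v) b +
      (if some x = lastO a u then
        (p ^ v.length + if u = [] then 0 else p ^ (v.length + 1)) * F p a (u ++ v) b else 0) +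
      (if some x = headO v b then
        (p ^ v.length + if v = [] then 0 else p ^ (v.length - 1)) * F p a (u ++ v) b else 0) := by
  by_cases h1 : some x = lastO a u
  · have hF : F p a (u ++ x :: v) b = 0 := by
      apply F_imp hDEL hp
      rw [Pr_mid]
      rintro ⟨⟨-, h2⟩, -⟩
      exact h2 h1
    by_cases h2 : some x = headO v b
    · have hF2 : F p a (u ++ v) b = 0 := by
        apply F_imp hDEL hp
        intro h3
        have h4 := Pr_uv a b u v h3
        rw [← h1, ok_some_left] at h4
        exact h4 h2
      rw [dl_append_cons, lemA0 hDEL hp a b u v x h2, lemB0 hDEL hp a b u v x h1, hF, hF2]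
      simp
    · rw [dl_append_cons, lemA hDEL hp a b u v x h1, lemB0 hDEL hp a b u v x h1, hF,
        if_pos h1, if_neg h2]
      split_ifs <;> ring
  · by_cases h2 : some x = headO v b
    · have hF : F p a (u ++ x :: v) b = 0 := by
        apply F_imp hDEL hp
        rw [Pr_mid]
        rintro ⟨-, -, h3⟩
        exact h3 h2
      rw [dl_append_cons, lemA0 hDEL hp a b u v x h2, lemB hDEL hp a b u v x h2, hF,
        if_neg h1, if_pos h2]
      split_ifs <;> ring
    · rw [if_neg h1, if_neg h2, ← F_rec hDEL hp a b (u ++ x :: v)
        ((Pr_mid a b u v x).2 ⟨⟨hu, h1⟩, hv, h2⟩)]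
      have : (u ++ x :: v).length = u.length + v.length + 1 := by simp; omega
      rw [this]
      ring

theorem sum_ite_opt [Fintype C] (l : Option C) (c : ℝ) :
    ∑ x : C, (if some x = l then c else 0) = if l = none then 0 else c := by
  cases l with
  | none => simp
  | some y => simp

/-- recursion for the left side -/
theorem S_rec [Fintype C] (hDEL : S_DEL) {p : ℝ} (hp : Good p)
    (hq : (Fintype.card C : ℝ) * p = (1 + p) ^ 2) (a b : Option C) (u v : List C)
    (hu : Pr a u none) (hv : Pr none v b) :
    (1 - p ^ (u.length + v.length + 1)) * ∑ x : C, F p a (u ++ x :: v) b =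
      p ^ (v.length + 1) * dl p (fun z => ∑ x : C, F p a (z ++ x :: v) b) u +
      dl p (fun z => ∑ x : C, F p a (u ++ x :: z) b) v +
      (al p b * (if v = [] then 1 else 0) + p ^ (v.length + 1) * be p a *
        (if u = [] then 1 else 0)) * F p a (u ++ v) b := by
  have hpn := hp.ne
  have hsum : ∑ x : C, dl p (fun z => F p a z b) (u ++ x :: v) =
      p ^ (v.length + 1) * dl p (fun z => ∑ x : C, F p a (z ++ x :: v) b) u +
      (Fintype.card C : ℝ) * (p ^ v.length * F p a (u ++ v) b) +
      dl p (fun z => ∑ x : C, F p a (u ++ x :: z) b) v := by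
    rw [dl_sum, dl_sum, Finset.mul_sum]
    have : ∀ x ∈ (Finset.univ : Finset C), dl p (fun z => F p a z b) (u ++ x :: v) =
        p ^ (v.length + 1) * dl p (fun z => F p a (z ++ x :: v) b) u +
        p ^ v.length * F p a (u ++ v) b + dl p (fun z => F p a (u ++ x :: z) b) v := by
      intro x _
      exact dl_append_cons p _ u v x
    rw [Finset.sum_congr rfl this, Finset.sum_add_distrib, Finset.sum_add_distrib,
      Finset.sum_const, Finset.card_univ, nsmul_eq_mul]
  have hsum2 : ∑ x : C, dl p (fun z => F p a z b) (u ++ x :: v) =
      (1 - p ^ (u.length + v.length + 1)) * ∑ x : C, F p a (u ++ x :: v) b +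
      (if lastO a u = none then 0 else
        (p ^ v.length + if u = [] then 0 else p ^ (v.length + 1)) * F p a (u ++ v) b) +
      (if headO v b = none then 0 else
        (p ^ v.length + if v = [] then 0 else p ^ (v.length - 1)) * F p a (u ++ v) b) := by
    rw [Finset.sum_congr rfl (fun x _ => defect hDEL hp a b u v x hu hv),
      Finset.sum_add_distrib, Finset.sum_add_distrib, Finset.mul_sum, sum_ite_opt, sum_ite_opt]
  have hqq : (Fintype.card C : ℝ) = p + 2 + p⁻¹ := by
    field_simp
    linear_combination hq
  have key : (Fintype.card C : ℝ) * (p ^ v.length * F p a (u ++ v) b) =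
      (if lastO a u = none then 0 else
        (p ^ v.length + if u = [] then 0 else p ^ (v.length + 1)) * F p a (u ++ v) b) +
      (if headO v b = none then 0 else
        (p ^ v.length + if v = [] then 0 else p ^ (v.length - 1)) * F p a (u ++ v) b) +
      (al p b * (if v = [] then 1 else 0) + p ^ (v.length + 1) * be p a *
        (if u = [] then 1 else 0)) * F p a (u ++ v) b := by
    rw [hqq]
    unfold al be
    cases u with
    | nil =>
      cases v with
      | nil =>
        simp only [lastO, headO, if_true, List.length_nil, pow_zero, zero_add, pow_one, add_zero,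
          mul_one, one_mul]
        by_cases ha : a = none
        · by_cases hb : b = none
          · rw [if_pos ha, if_pos hb, if_pos ha, if_pos hb]
            field_simp
            ring
          · rw [if_pos ha, if_neg hb, if_pos ha, if_neg hb]
            field_simp
            ring
        · by_cases hb : b = none
          · rw [if_neg ha, if_pos hb, if_neg ha, if_pos hb]
            field_simp
            ring
          · rw [if_neg ha, if_neg hb, if_neg ha, if_neg hb]
            field_simp
            ring
      | cons y v =>
        have h1 : headO (y :: v) b ≠ none := by simp [headO]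
        have h2 : y :: v ≠ [] := by simp
        rw [if_neg h1, if_neg h2, if_neg h2]
        simp only [lastO, if_true, List.length_cons, Nat.add_sub_cancel, pow_succ, mul_one,
          mul_zero, zero_add, add_zero]
        by_cases ha : a = none
        · rw [if_pos ha, if_pos ha]
          field_simp
          ring
        · rw [if_neg ha, if_neg ha]
          field_simp
          ring
    | cons x u =>
      have h3 : lastO a (x :: u) ≠ none := lastO_cons_ne a u x
      have h4 : x :: u ≠ [] := by simp
      rw [if_neg h3, if_neg h4, if_neg h4]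
      cases v with
      | nil =>
        simp only [headO, if_true, List.length_nil, pow_zero, zero_add, pow_one, add_zero,
          mul_one, one_mul, mul_zero]
        by_cases hb : b = none
        · rw [if_pos hb, if_pos hb]
          field_simp
          ring
        · rw [if_neg hb, if_neg hb]
          field_simp
          ring
      | cons y v =>
        have h1 : headO (y :: v) b ≠ none := by simp [headO]
        have h2 : y :: v ≠ [] := by simp
        rw [if_neg h1, if_neg h2, if_neg h2]
        simp only [List.length_cons, Nat.add_sub_cancel, pow_succ, mul_zero, zero_add, add_zero,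
          zero_mul]
        field_simp
        ring
  linear_combination hsum2.symm.trans hsum + key

/-- left inner bracket -/
noncomputable def K (p : ℝ) (a b : Option C) (B : ℕ) (u : List C) : ℝ :=
  F p a u none - spl (fun u1 y u2 => if some y = b then
        F p a u1 b * F p b u2 none / (1 - p ^ (u2.length + 1 + B)) else 0) u

/-- right inner bracket -/
noncomputable def M (p : ℝ) (a b : Option C) (A : ℕ) (v : List C) : ℝ :=
  F p none v b - spl (fun v1 y v2 => if some y = a then
        p ^ (A + v1.length) / (1 - p ^ (A + v1.length + 1)) *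
          F p none v1 a * F p a v2 b else 0) v

theorem K_zero (hVL : S_VL) {p : ℝ} (hp : Good p) (a b : Option C) (hab : ok a b) (u : List C) :
    K p a b 0 u = F p a u b := (hVL C p hp a b u hab).symm

theorem M_zero (hVR : S_VR) {p : ℝ} (hp : Good p) (a b : Option C) (hab : ok a b) (v : List C) :
    M p a b 0 v = F p a v b := by
  rw [hVR C p hp a b v hab]
  unfold M
  simp only [zero_add]

theorem K_imp (hDEL : S_DEL) {p : ℝ} (hp : Good p) (a b : Option C) (B : ℕ) (u : List C)
    (h : ¬ Pr a u none) : K p a b B u = 0 := by
  unfold K
  rw [F_imp hDEL hp a none u h, spl_eq_zero, sub_zero]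
  intro u1 y u2 hu
  split_ifs with hy
  · rw [hu, Pr_append_cons, hy] at h
    by_cases h1 : Pr a u1 b
    · have h2 : ¬ Pr b u2 none := fun h2 => h ⟨h1, h2⟩
      rw [F_imp hDEL hp b none u2 h2]
      simp
    · rw [F_imp hDEL hp a b u1 h1]
      simp
  · rfl

theorem M_imp (hDEL : S_DEL) {p : ℝ} (hp : Good p) (a b : Option C) (A : ℕ) (v : List C)
    (h : ¬ Pr none v b) : M p a b A v = 0 := by
  unfold M
  rw [F_imp hDEL hp none b v h, spl_eq_zero, sub_zero]
  intro u1 y u2 hu
  split_ifs with hy
  · rw [hu, Pr_append_cons, hy] at h
    by_cases h1 : Pr none u1 a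
    · have h2 : ¬ Pr a u2 b := fun h2 => h ⟨h1, h2⟩
      rw [F_imp hDEL hp a b u2 h2]
      simp
    · rw [F_imp hDEL hp none a u1 h1]
      simp
  · rfl

theorem K_rec (hDEL : S_DEL) {p : ℝ} (hp : Good p) (a b : Option C) (B : ℕ) (u : List C)
    (h : Pr a u none) :
    (1 - p ^ (u.length + (B + 1))) * K p a b (B + 1) u =
      p ^ (B + 1) * dl p (K p a b (B + 1)) u + (1 - p ^ (B + 1)) * K p a b B u := by
  have hK : dl p (K p a b (B + 1)) u = dl p (fun z => F p a z none) u -
      dl p (spl (fun u1 y u2 => if some y = b then
        F p a u1 b * F p b u2 none / (1 - p ^ (u2.length + 1 + (B + 1))) else 0)) u := by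
    rw [← dl_sub]
    rfl
  rw [hK, ← F_rec hDEL hp a none u h, dl_spl]
  have hs : (1 - p ^ (u.length + (B + 1))) * spl (fun u1 y u2 => if some y = b then
        F p a u1 b * F p b u2 none / (1 - p ^ (u2.length + 1 + (B + 1))) else 0) u =
      p ^ (B + 1) * spl (fun u1 y u2 => dl p ((fun u1 y u2 => if some y = b then
        F p a u1 b * F p b u2 none / (1 - p ^ (u2.length + 1 + (B + 1))) else 0) u1 y) u2 +
          p ^ (u2.length + 1) * dl p (fun z => (fun u1 y u2 => if some y = b then
        F p a u1 b * F p b u2 none / (1 - p ^ (u2.length + 1 + (B + 1))) else 0) z y u2) u1) u +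
      (1 - p ^ (B + 1)) * spl (fun u1 y u2 => if some y = b then
        F p a u1 b * F p b u2 none / (1 - p ^ (u2.length + 1 + B)) else 0) u := by
    rw [← spl_mul, ← spl_mul, ← spl_mul, ← spl_add]
    apply spl_congr
    intro u1 y u2 hu
    by_cases hy : some y = b
    · simp only [if_pos hy]
      rw [hu, Pr_append_cons, hy] at h
      have e1 : dl p (fun u2 => F p a u1 b * F p b u2 none /
          (1 - p ^ (u2.length + 1 + (B + 1)))) u2 =
          F p a u1 b * ((1 - p ^ u2.length) * F p b u2 none) / (1 - p ^ (u2.length + 1 + B)) := by
        have e2 : dl p (fun u2 => F p a u1 b * F p b u2 none /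
            (1 - p ^ (u2.length + 1 + (B + 1)))) u2 =
            F p a u1 b / (1 - p ^ (u2.length - 1 + 1 + (B + 1))) *
              dl p (fun z => F p b z none) u2 :=
          (dl_congr' p _ (fun z => (fun n : ℕ => F p a u1 b / (1 - p ^ (n + 1 + (B + 1)))) z.length *
              F p b z none) u2 (fun z => by ring)).trans
            (dl_len p (fun n : ℕ => F p a u1 b / (1 - p ^ (n + 1 + (B + 1))))
              (fun z => F p b z none) u2)
        rw [e2, ← F_rec hDEL hp b none u2 h.2]
        cases hl : u2.length with
        | zero => simp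
        | succ n =>
          have e3 : n + 1 - 1 + 1 + (B + 1) = n + 1 + 1 + B := by omega
          rw [e3]
          ring
      have e4 : dl p (fun z => F p a z b * F p b u2 none /
          (1 - p ^ (u2.length + 1 + (B + 1)))) u1 =
          (1 - p ^ u1.length) * F p a u1 b * F p b u2 none /
            (1 - p ^ (u2.length + 1 + (B + 1))) := by
        have e5 : dl p (fun z => F p a z b * F p b u2 none /
            (1 - p ^ (u2.length + 1 + (B + 1)))) u1 =
            dl p (fun z => (F p b u2 none / (1 - p ^ (u2.length + 1 + (B + 1)))) *
              F p a z b) u1 := dl_congr' p _ _ u1 (fun z => by ring)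
        rw [e5, dl_mul, ← F_rec hDEL hp a b u1 h.1]
        ring
      rw [e1, e4]
      have hl : u.length = u1.length + (u2.length + 1) := by rw [hu]; simp
      rw [hl]
      have d1 : 1 - p ^ (u2.length + 1 + (B + 1)) ≠ 0 := hp.sub (u2.length + 1 + B)
      have d2 : 1 - p ^ (u2.length + 1 + B) ≠ 0 := by
        have := hp.sub (u2.length + B)
        rwa [show u2.length + B + 1 = u2.length + 1 + B by omega] at this
      field_simp
      simp only [pow_add, pow_one]
      ring
    · simp only [if_neg hy]
      rw [dl_eq_zero p _ u2 (fun _ => rfl), dl_eq_zero p _ u1 (fun _ => rfl)]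
      ring
  unfold K
  have hl : p ^ (u.length + (B + 1)) = p ^ u.length * p ^ (B + 1) := pow_add _ _ _
  rw [mul_sub, hs, hl]
  ring

theorem M_rec (hDEL : S_DEL) {p : ℝ} (hp : Good p) (a b : Option C) (A : ℕ) (v : List C)
    (h : Pr none v b) :
    (1 - p ^ (A + 1 + v.length)) * M p a b (A + 1) v =
      p ^ v.length * (1 - p ^ (A + 1)) * M p a b A v + dl p (M p a b (A + 1)) v := by
  have hM : dl p (M p a b (A + 1)) v = dl p (fun z => F p none z b) v -
      dl p (spl (fun v1 y v2 => if some y = a then
        p ^ (A + 1 + v1.length) / (1 - p ^ (A + 1 + v1.length + 1)) *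
          F p none v1 a * F p a v2 b else 0)) v := by
    rw [← dl_sub]
    rfl
  rw [hM, ← F_rec hDEL hp none b v h, dl_spl]
  have hs : (1 - p ^ (A + 1 + v.length)) * spl (fun v1 y v2 => if some y = a then
        p ^ (A + 1 + v1.length) / (1 - p ^ (A + 1 + v1.length + 1)) *
          F p none v1 a * F p a v2 b else 0) v =
      p ^ v.length * (1 - p ^ (A + 1)) * spl (fun v1 y v2 => if some y = a then
        p ^ (A + v1.length) / (1 - p ^ (A + v1.length + 1)) *
          F p none v1 a * F p a v2 b else 0) v +
      spl (fun u1 y u2 => dl p ((fun v1 y v2 => if some y = a then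
        p ^ (A + 1 + v1.length) / (1 - p ^ (A + 1 + v1.length + 1)) *
          F p none v1 a * F p a v2 b else 0) u1 y) u2 +
          p ^ (u2.length + 1) * dl p (fun z => (fun v1 y v2 => if some y = a then
        p ^ (A + 1 + v1.length) / (1 - p ^ (A + 1 + v1.length + 1)) *
          F p none v1 a * F p a v2 b else 0) z y u2) u1) v := by
    rw [← spl_mul, ← spl_mul, ← spl_add]
    apply spl_congr
    intro v1 y v2 hv
    by_cases hy : some y = a
    · simp only [if_pos hy]
      rw [hv, Pr_append_cons, hy] at h
      have e1 : dl p (fun v2 => p ^ (A + 1 + v1.length) / (1 - p ^ (A + 1 + v1.length + 1)) *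
          F p none v1 a * F p a v2 b) v2 =
          p ^ (A + 1 + v1.length) / (1 - p ^ (A + 1 + v1.length + 1)) * F p none v1 a *
            ((1 - p ^ v2.length) * F p a v2 b) := by
        rw [dl_mul, ← F_rec hDEL hp a b v2 h.2]
      have e4 : dl p (fun z => p ^ (A + 1 + z.length) / (1 - p ^ (A + 1 + z.length + 1)) *
          F p none z a * F p a v2 b) v1 =
          p ^ (A + v1.length) / (1 - p ^ (A + v1.length + 1)) *
            ((1 - p ^ v1.length) * F p none v1 a) * F p a v2 b := by
        have e5 : dl p (fun z => p ^ (A + 1 + z.length) / (1 - p ^ (A + 1 + z.length + 1)) *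
            F p none z a * F p a v2 b) v1 =
            F p a v2 b * (p ^ (A + 1 + (v1.length - 1)) / (1 - p ^ (A + 1 + (v1.length - 1) + 1))) *
              dl p (fun z => F p none z a) v1 :=
          (dl_congr' p _ (fun z => (fun n : ℕ => F p a v2 b * (p ^ (A + 1 + n) /
              (1 - p ^ (A + 1 + n + 1)))) z.length * F p none z a) v1 (fun z => by ring)).trans
            (dl_len p (fun n : ℕ => F p a v2 b * (p ^ (A + 1 + n) /
              (1 - p ^ (A + 1 + n + 1)))) (fun z => F p none z a) v1)
        rw [e5, ← F_rec hDEL hp none a v1 h.1]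
        cases hl : v1.length with
        | zero => simp
        | succ n =>
          have e3 : A + 1 + (n + 1 - 1) = A + (n + 1) := by omega
          rw [e3]
          ring
      rw [e1, e4]
      have hl : v.length = v1.length + (v2.length + 1) := by rw [hv]; simp
      rw [hl]
      have d1 : 1 - p ^ (A + 1 + v1.length + 1) ≠ 0 := hp.sub (A + 1 + v1.length)
      have d2 : 1 - p ^ (A + v1.length + 1) ≠ 0 := hp.sub (A + v1.length)
      field_simp
      simp only [pow_add, pow_one]
      ring
    · simp only [if_neg hy]
      rw [dl_eq_zero p _ v2 (fun _ => rfl), dl_eq_zero p _ v1 (fun _ => rfl)]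
      ring
  unfold M
  have hl : p ^ (A + 1 + v.length) = p ^ (A + 1) * p ^ v.length := pow_add _ _ _
  rw [mul_sub, hs, hl]
  ring

/-- the right side -/
noncomputable def R (p : ℝ) (a b : Option C) (u v : List C) : ℝ :=
  al p b / (1 - p ^ (v.length + 1)) * F p none v b * K p a b (v.length + 1) u +
    be p a * p ^ (u.length + 1) / (1 - p ^ (u.length + 1)) * F p a u none *
      M p a b (u.length + 1) v

theorem R_rec (hDEL : S_DEL) (hVL : S_VL) (hVR : S_VR) {p : ℝ} (hp : Good p)
    (a b : Option C) (hab : ok a b) (u v : List C)
    (hu : Pr a u none) (hv : Pr none v b) :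
    (1 - p ^ (u.length + v.length + 1)) * R p a b u v =
      p ^ (v.length + 1) * dl p (fun z => R p a b z v) u +
      dl p (fun z => R p a b u z) v +
      (al p b * (if v = [] then 1 else 0) + p ^ (v.length + 1) * be p a *
        (if u = [] then 1 else 0)) * F p a (u ++ v) b := by
  have hd1 : 1 - p ^ (v.length + 1) ≠ 0 := hp.sub _
  have hd2 : 1 - p ^ (u.length + 1) ≠ 0 := hp.sub _
  -- deletions in u
  have hU : dl p (fun z => R p a b z v) u + be p a * (if u = [] then 1 else 0) *
      F p a (u ++ v) b =
      al p b / (1 - p ^ (v.length + 1)) * F p none v b * dl p (K p a b (v.length + 1)) u +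
      be p a * p ^ u.length * F p a u none * M p a b u.length v := by
    have h1 : dl p (fun z => R p a b z v) u =
        al p b / (1 - p ^ (v.length + 1)) * F p none v b * dl p (K p a b (v.length + 1)) u +
        be p a * p ^ (u.length - 1 + 1) / (1 - p ^ (u.length - 1 + 1)) *
          M p a b (u.length - 1 + 1) v * dl p (fun z => F p a z none) u := by
      have h0 := dl_len p (fun n : ℕ => be p a * p ^ (n + 1) / (1 - p ^ (n + 1)) *
          M p a b (n + 1) v) (fun z => F p a z none) u
      refine Eq.trans ?_ (congrArg (fun t => al p b / (1 - p ^ (v.length + 1)) * F p none v b *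
        dl p (K p a b (v.length + 1)) u + t) h0)
      rw [← dl_mul, ← dl_add]
      apply dl_congr'
      intro z
      unfold R
      ring
    rw [h1, ← F_rec hDEL hp a none u hu]
    cases u with
    | nil =>
      have h2 : F p a ([] : List C) none = 1 := by
        rw [(hDEL C p hp a none).1, if_pos]
        unfold ok
        tauto
      simp only [List.length_nil, pow_zero, if_true, List.nil_append]
      rw [h2, M_zero hVR hp a b hab]
      ring
    | cons x u =>
      have h3 : x :: u ≠ [] := by simp
      have h4 : (x :: u).length - 1 + 1 = (x :: u).length := by simp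
      have h5 : 1 - p ^ (x :: u).length ≠ 0 := hp.sub _
      rw [if_neg h3]
      rw [h4]
      field_simp
      ring
  -- deletions in v
  have hV : dl p (fun z => R p a b u z) v + al p b * (if v = [] then 1 else 0) *
      F p a (u ++ v) b =
      al p b * F p none v b * K p a b v.length u +
      be p a * p ^ (u.length + 1) / (1 - p ^ (u.length + 1)) * F p a u none *
        dl p (M p a b (u.length + 1)) v := by
    have h1 : dl p (fun z => R p a b u z) v =
        al p b / (1 - p ^ (v.length - 1 + 1)) * K p a b (v.length - 1 + 1) u *
          dl p (fun z => F p none z b) v +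
        be p a * p ^ (u.length + 1) / (1 - p ^ (u.length + 1)) * F p a u none *
        dl p (M p a b (u.length + 1)) v := by
      have h0 := dl_len p (fun n : ℕ => al p b / (1 - p ^ (n + 1)) *
          K p a b (n + 1) u) (fun z => F p none z b) v
      refine Eq.trans ?_ (congrArg (fun t => t +
        be p a * p ^ (u.length + 1) / (1 - p ^ (u.length + 1)) * F p a u none *
        dl p (M p a b (u.length + 1)) v) h0)
      rw [← dl_mul, ← dl_add]
      apply dl_congr'
      intro z
      unfold R
      ring
    rw [h1, ← F_rec hDEL hp none b v hv]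
    cases v with
    | nil =>
      have h2 : F p none ([] : List C) b = 1 := by
        rw [(hDEL C p hp none b).1, if_pos]
        unfold ok
        tauto
      simp only [List.length_nil, pow_zero, if_true, List.append_nil]
      rw [h2, K_zero hVL hp a b hab]
      ring
    | cons x v =>
      have h3 : x :: v ≠ [] := by simp
      have h4 : (x :: v).length - 1 + 1 = (x :: v).length := by simp
      have h5 : 1 - p ^ (x :: v).length ≠ 0 := hp.sub _
      rw [if_neg h3]
      rw [h4]
      field_simp
      ring
  have hK := K_rec hDEL hp a b v.length u hu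
  have hM := M_rec hDEL hp a b u.length v hv
  have e1 : p ^ (u.length + (v.length + 1)) = p ^ (u.length + v.length + 1) := by
    rw [add_assoc]
  have e2 : p ^ (u.length + 1 + v.length) = p ^ (u.length + v.length + 1) := by
    congr 1; omega
  rw [e1] at hK
  rw [e2] at hM
  have e3 : p ^ (v.length + 1) * p ^ u.length = p ^ (u.length + 1) * p ^ v.length := by
    rw [pow_succ, pow_succ]; ring
  have hK' : (1 - p ^ (u.length + v.length + 1)) * (al p b / (1 - p ^ (v.length + 1)) *
      F p none v b * K p a b (v.length + 1) u) =
      p ^ (v.length + 1) * (al p b / (1 - p ^ (v.length + 1)) * F p none v b *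
        dl p (K p a b (v.length + 1)) u) + al p b * F p none v b * K p a b v.length u := by
    have : (1 - p ^ (u.length + v.length + 1)) * (al p b / (1 - p ^ (v.length + 1)) *
      F p none v b * K p a b (v.length + 1) u) = al p b / (1 - p ^ (v.length + 1)) *
      F p none v b * ((1 - p ^ (u.length + v.length + 1)) * K p a b (v.length + 1) u) := by ring
    rw [this, hK]
    field_simp
  have hM' : (1 - p ^ (u.length + v.length + 1)) * (be p a * p ^ (u.length + 1) /
      (1 - p ^ (u.length + 1)) * F p a u none * M p a b (u.length + 1) v) =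
      p ^ (v.length + 1) * (be p a * p ^ u.length * F p a u none * M p a b u.length v) +
      be p a * p ^ (u.length + 1) / (1 - p ^ (u.length + 1)) * F p a u none *
        dl p (M p a b (u.length + 1)) v := by
    have : (1 - p ^ (u.length + v.length + 1)) * (be p a * p ^ (u.length + 1) /
      (1 - p ^ (u.length + 1)) * F p a u none * M p a b (u.length + 1) v) =
      be p a * p ^ (u.length + 1) / (1 - p ^ (u.length + 1)) * F p a u none *
      ((1 - p ^ (u.length + v.length + 1)) * M p a b (u.length + 1) v) := by ring
    rw [this, hM]
    have : be p a * p ^ (u.length + 1) / (1 - p ^ (u.length + 1)) * F p a u none *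
        (p ^ v.length * (1 - p ^ (u.length + 1)) * M p a b u.length v +
          dl p (M p a b (u.length + 1)) v) =
        (p ^ (u.length + 1) * p ^ v.length) * (be p a * F p a u none * M p a b u.length v) +
        be p a * p ^ (u.length + 1) / (1 - p ^ (u.length + 1)) * F p a u none *
          dl p (M p a b (u.length + 1)) v := by
      field_simp
    rw [this, ← e3]
    ring
  have hR : (1 - p ^ (u.length + v.length + 1)) * R p a b u v =
      (1 - p ^ (u.length + v.length + 1)) * (al p b / (1 - p ^ (v.length + 1)) *
      F p none v b * K p a b (v.length + 1) u) +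
      (1 - p ^ (u.length + v.length + 1)) * (be p a * p ^ (u.length + 1) /
      (1 - p ^ (u.length + 1)) * F p a u none * M p a b (u.length + 1) v) := by
    unfold R
    ring
  rw [hR, hK', hM']
  linear_combination (-(p ^ (v.length + 1))) * hU - hV

theorem gap_aux [Fintype C] (hDEL : S_DEL) (hVL : S_VL) (hVR : S_VR) {p : ℝ} (hp : Good p)
    (hq : (Fintype.card C : ℝ) * p = (1 + p) ^ 2) (a b : Option C) (hab : ok a b) (n : ℕ) :
    ∀ u v : List C, u.length + v.length = n → ∑ x : C, F p a (u ++ x :: v) b = R p a b u v := by
  induction n using Nat.strong_induction_on with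
  | _ n ih =>
    intro u v huv
    by_cases hu : Pr a u none
    · by_cases hv : Pr none v b
      · have h1 := S_rec hDEL hp hq a b u v hu hv
        have h2 := R_rec hDEL hVL hVR hp a b hab u v hu hv
        have h3 : dl p (fun z => ∑ x : C, F p a (z ++ x :: v) b) u =
            dl p (fun z => R p a b z v) u := by
          apply dl_congr
          intro z hz
          exact ih (z.length + v.length) (by omega) z v rfl
        have h4 : dl p (fun z => ∑ x : C, F p a (u ++ x :: z) b) v =
            dl p (fun z => R p a b u z) v := by
          apply dl_congr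
          intro z hz
          exact ih (u.length + z.length) (by omega) u z rfl
        rw [h3, h4] at h1
        exact mul_left_cancel₀ (hp.sub (u.length + v.length)) (h1.trans h2.symm)
      · rw [R, F_imp hDEL hp none b v hv, M_imp hDEL hp a b _ v hv, mul_zero, mul_zero, zero_mul,
          add_zero]
        apply Finset.sum_eq_zero
        intro x _
        apply F_imp hDEL hp
        rw [Pr_mid]
        tauto
    · rw [R, F_imp hDEL hp a none u hu, K_imp hDEL hp a b _ u hu, mul_zero, mul_zero, zero_mul,
        add_zero]
      apply Finset.sum_eq_zero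
      intro x _
      apply F_imp hDEL hp
      rw [Pr_mid]
      tauto

theorem t_GAP (hDEL : S_DEL) (hVL : S_VL) (hVR : S_VR) : S_GAP := by
  intro C _ _ p hp hq a b u v hab
  exact gap_aux hDEL hVL hVR hp hq a b hab _ u v rfl

end main

end Pool.Agent.W915.CY
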